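import Pool.Agent.N662.FP.Stm

/-!
# Project FL (helper662), leaf EE: one-point bounds imply the inner bound
-/

set_option autoImplicit false
open MeasureTheory ProbabilityTheory Filter Set
open scoped ENNReal Pointwise Topology

namespace Pool.Agent.N698.FL.EE

open Pool.Agent.N662.FP

theorem t_EE (h1 : S_E1) (h2 : S_E2) : S_EE := by
  intro Ω _ _ T μ hμ κ A hκ0 hκ1 hA hT κ' hκ'0 hκ'κ
  obtain ⟨C, K, hC, hK, h3⟩ := h1 μ hμ
  refine ⟨(κ - κ') / 2, by linarith, ?_⟩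
  filter_upwards [h2 A C K κ κ' hA hC hK hκ'0 hκ'κ hκ1, eventually_ge_atTop (1 : ℝ)] with t ht2 ht1
  obtain ⟨F, hF1, hF2, hF3⟩ := h3 κ' t hκ'0 ht1
  have hKt : 0 < K * t ^ 2 := by positivity
  have hone : ∀ v ∈ F, (volume : Measure Ω).real {ω | t < T ω v} ≤
      Real.exp (-(t ^ ((κ - κ') / 2))) / (K * t ^ 2) := by
    intro v hv
    obtain ⟨h4, h5⟩ := ht2 (μ (em v)) (apply_nonneg μ _) (hF2 v hv)
    have h6 := hT v _ h4
    refine le_trans (measureReal_mono (fun ω hω => ?_) (measure_ne_top _ _)) (h6.trans ?_)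
    · have h7 : t < T ω v := hω
      show μ (em v) + A * (1 + μ (em v)) ^ (1 - κ) +
        (t - μ (em v) - A * (1 + μ (em v)) ^ (1 - κ)) ≤ T ω v
      linarith
    · rw [le_div_iff₀ hKt, mul_comm]
      exact h5
  calc (volume : Measure Ω).real (Bad T μ κ' t)
      ≤ (volume : Measure Ω).real (⋃ v ∈ F, {ω | t < T ω v}) :=
        measureReal_mono (hF3 Ω T) (measure_ne_top _ _)
    _ ≤ ∑ v ∈ F, (volume : Measure Ω).real {ω | t < T ω v} := measureReal_biUnion_finset_le _ _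
    _ ≤ ∑ v ∈ F, Real.exp (-(t ^ ((κ - κ') / 2))) / (K * t ^ 2) := Finset.sum_le_sum hone
    _ = F.card * (Real.exp (-(t ^ ((κ - κ') / 2))) / (K * t ^ 2)) := by
        rw [Finset.sum_const, nsmul_eq_mul]
    _ ≤ (K * t ^ 2) * (Real.exp (-(t ^ ((κ - κ') / 2))) / (K * t ^ 2)) :=
        mul_le_mul_of_nonneg_right hF1 (by positivity)
    _ = Real.exp (-(t ^ ((κ - κ') / 2))) := by
        field_simp

end Pool.Agent.N698.FL.EE
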